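import Pool.Agent.H2.KL.FIN

/-!
# MP_895f30: all finite p-groups, in the range `2 e < p`

For every prime `p`, every finite `p`-group `G` and every `e` with `2 e < p` such that the largest
degree of an irreducible complex representation of `G` is `p^e`, the irreducible representations of
degree `p^e` are jointly faithful: `N_e(G) = 1`.
-/

set_option autoImplicit false

namespace Pool.Agent.Results.MP_895f30_al.AllGroupsTwoE

theorem result : ∀ (p : ℕ), p.Prime → ∀ (G : Type) [Group G] [Finite G], IsPGroup p G →
    ∀ e : ℕ,
    (∃ (V : Type) (_ : AddCommGroup V) (_ : Module ℂ V) (_ : FiniteDimensional ℂ V)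
      (rho : Representation ℂ G V), rho.IsIrreducible ∧ Module.finrank ℂ V = p ^ e) →
    (∀ (V : Type) [AddCommGroup V] [Module ℂ V] [FiniteDimensional ℂ V]
      (rho : Representation ℂ G V), rho.IsIrreducible → Module.finrank ℂ V ≤ p ^ e) →
    2 * e < p →
    ∀ g : G, (∀ (V : Type) [AddCommGroup V] [Module ℂ V] [FiniteDimensional ℂ V]
      (rho : Representation ℂ G V), rho.IsIrreducible → Module.finrank ℂ V = p ^ e → rho g = 1) →
    g = 1 :=
  H2.KL.fin

end Pool.Agent.Results.MP_895f30_al.AllGroupsTwoE
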