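import Pool.Agent.H2.EA.CORE
import Pool.Agent.H2.EA.STEP
import Pool.Agent.H11.EA.LOG
import Pool.Agent.H11.EA.ZF
import Pool.Agent.H11.EA.LIN
import Pool.Agent.H28.EA.COORD
import Pool.Agent.H28.EA.IDX
import Pool.Agent.H43.EA.Hz
import Pool.Agent.H43.EA.Idx2
import Pool.Agent.H43.EA.Sc
import Pool.Agent.H44.EA.Rta
import Pool.Agent.H44.EA.Rtb
import Pool.Agent.H57.EA.FL1
import Pool.Agent.H57.EA.FL2
import Pool.Agent.H60.EA.ALT
import Pool.Agent.H60.EA.RKB
import Pool.Agent.H75.EA.FIN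
import Pool.Agent.H80.EA.CRA
import Pool.Agent.H80.EA.RB
import Pool.Agent.H80.EA.SQ
import Pool.Agent.H9.EA.DAT
import Pool.Agent.H9.EA.EXT
import Pool.Agent.H9.EA.RX
import Pool.Agent.H9.EA.TW
import Pool.Agent.H9.EA.ZG

/-!
# MP_895f30: p-groups whose commutator subgroup is elementary abelian

For every prime `p`, every finite `p`-group `G` with `G'` elementary abelian and every `e < p` such
that the largest degree of an irreducible complex representation of `G` is `p^e`, the irreducible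
representations of degree `p^e` are jointly faithful.
-/

set_option autoImplicit false

namespace Pool.Agent.Results.MP_895f30_al.ElementaryAbelianCommutator

theorem result : ∀ (p : ℕ), p.Prime → ∀ (G : Type) [Group G] [Finite G], IsPGroup p G →
    (∀ x ∈ commutator G, x ^ p = 1) → (∀ x ∈ commutator G, ∀ y ∈ commutator G, x * y = y * x) →
    ∀ e : ℕ,
    (∃ (V : Type) (_ : AddCommGroup V) (_ : Module ℂ V) (_ : FiniteDimensional ℂ V)
      (rho : Representation ℂ G V), rho.IsIrreducible ∧ Module.finrank ℂ V = p ^ e) →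
    (∀ (V : Type) [AddCommGroup V] [Module ℂ V] [FiniteDimensional ℂ V]
      (rho : Representation ℂ G V), rho.IsIrreducible → Module.finrank ℂ V ≤ p ^ e) →
    e < p →
    ∀ g : G, (∀ (V : Type) [AddCommGroup V] [Module ℂ V] [FiniteDimensional ℂ V]
      (rho : Representation ℂ G V), rho.IsIrreducible → Module.finrank ℂ V = p ^ e → rho g = 1) →
    g = 1 := by
  have hLOG1 := H11.EA.t_LOG1
  have hLOG2 := H11.EA.t_LOG2
  have hZF := H11.EA.t_ZF hLOG1
  have hHOM := H11.EA.t_HOM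
  have hLIN := H11.EA.t_LIN hLOG1
  have hCOORD := H28.EA.t_COORD
  have hRKB := H60.EA.t_RKB
  have hLA3 := H60.EA.t_LA3 hRKB
  have hALT := H60.EA.t_ALT
  have hIDX1 := H28.EA.t_IDX1 hZF hLOG2 hHOM hLIN hRKB
  have hIDX4 := H28.EA.t_IDX4 hZF hHOM
  have hHZ := H43.EA.t_HZ
  have hIDX2 := H43.EA.t_IDX2
  have hSC := H43.EA.t_SC
  have hSQ := H80.EA.t_SQ
  have hCRA := H80.EA.t_CRA
  have hZG := H9.EA.t_ZG
  have hRB := H80.EA.t_RB hZF hZG hHOM
  have hEXT := H9.EA.t_EXT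
  have hFL1 := H57.EA.t_FL1 hZF hHOM hCOORD hEXT hHZ hIDX4
  have hFL2 := H57.EA.t_FL2 hZF hHOM hCOORD hHZ hSQ hALT hSC hLA3 hIDX1 hIDX2
  have hSTEP := H2.EA.t_STEP hZF hHOM hCOORD hEXT hCRA hRB
  have hCORE := H2.EA.t_CORE hSTEP hFL1 hFL2
  have hFIN : H2.EA.S_FIN := H75.EA.t_FIN hCORE H44.EA.t_RTA H44.EA.t_RTB H9.EA.t_RX H9.EA.t_RY
    H9.EA.t_DAT H9.EA.t_TW
  exact hFIN

end Pool.Agent.Results.MP_895f30_al.ElementaryAbelianCommutator
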